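import Pool.Agent.R507.SB.Cluster
import Pool.Agent.Results.MP_ba281e_nt.FourLevelDense

/-!
# Badly approximable numbers whose squares are not Poissonian modulo one

The definitions (`x`, `corr`, `IsOfType`, `PoissonianAlong`) are those of the starting file
`Pool/Agent/Results/MP_ba281e_nt/NoPoissonSubseq.lean`; `corr d N α f` is the `k`-level correlation
`R_k(f, N)` of `{n² α}`, `k = d + 1`.
-/

set_option autoImplicit false

namespace Pool.Agent.Results.MP_0a44cb_nt.BadlyApproximable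

open Filter Topology Pool.Agent.R507.SB
open Pool.Agent.Results.MP_ba281e_nt.NoPoissonSubseq (x corr IsOfType PoissonianAlong bump
  bump_continuous bump_nonneg bump_compact)
open Pool.Agent.Results.MP_ba281e_nt.FourLevelDense (box bump_int)

lemma growth (D : Dat) (d : ℕ) (f : (Fin d → ℝ) → ℝ) (hf : Continuous f)
    (hc : HasCompactSupport f) (hf0 : ∀ y, 0 ≤ f y) (h0 : 0 < f 0) :
    ∃ c : ℝ, 0 < c ∧ ∀ᶠ k : ℕ in atTop,
      c * (D.NN k : ℝ) ^ (((d : ℝ) + 1) / 4 - 1) ≤ corr d (D.NN k) D.alpha f := by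
  obtain ⟨δ, hδ0, hδ1, hδ⟩ := box d f hf h0
  refine ⟨f 0 / 2 * (δ / (4 * ((d : ℝ) + 1))) ^ (d + 1), by positivity,
    D.asym d f hf0 hc δ (f 0 / 2) hδ0 hδ1 (by positivity) ?_⟩
  intro y hy
  apply hδ
  intro i
  refine (hy i).trans ?_
  nlinarith

lemma NN_tendsto (D : Dat) : Tendsto D.NN atTop atTop := D.NN_strict.tendsto_atTop

lemma diverges (D : Dat) (d : ℕ) (hd : 4 ≤ d) (f : (Fin d → ℝ) → ℝ) (hf : Continuous f)
    (hc : HasCompactSupport f) (hf0 : ∀ y, 0 ≤ f y) (h0 : 0 < f 0) :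
    Tendsto (fun k : ℕ => corr d (D.NN k) D.alpha f) atTop atTop := by
  obtain ⟨c, hc0, h⟩ := growth D d f hf hc hf0 h0
  have hdR : (4 : ℝ) ≤ d := by exact_mod_cast hd
  refine tendsto_atTop_mono' atTop h ?_
  exact (((tendsto_rpow_atTop (by linarith)).comp tendsto_natCast_atTop_atTop).comp
    (NN_tendsto D)).const_mul_atTop hc0

/-- the four-level correlation beats every multiple of the Poisson value -/
lemma four (D : Dat) (K : ℝ) :
    ∃ f : (Fin 3 → ℝ) → ℝ, Continuous f ∧ HasCompactSupport f ∧ (∀ y, 0 ≤ f y) ∧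
      0 < ∫ y, f y ∧ ∀ᶠ k : ℕ in atTop, K * ∫ y, f y ≤ corr 3 (D.NN k) D.alpha f := by
  set I : ℝ := ∫ y, bump 3 y with hI
  have hI0 : 0 < I := bump_int
  set A : ℝ := 1 / 16 ^ 4 with hA
  have hA0 : 0 < A := by positivity
  -- choice of `ε`
  set ε : ℝ := min 1 (A / ((|K| + 1) * I)) with hε
  have hε0 : 0 < ε := by positivity
  have hε1 : ε ≤ 1 := min_le_left _ _
  have hε2 : ε * ((|K| + 1) * I) ≤ A := by
    have h1 : ε ≤ A / ((|K| + 1) * I) := min_le_right _ _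
    rwa [le_div_iff₀ (by positivity)] at h1
  set δ : ℝ := ε ^ 2 with hδ
  have hδ0 : 0 < δ := by positivity
  set f : (Fin 3 → ℝ) → ℝ := fun y => bump 3 (δ⁻¹ • y) with hf
  have hfc : Continuous f := (bump_continuous 3).comp (continuous_const_smul _)
  have hfs : HasCompactSupport f :=
    (bump_compact 3).comp_homeomorph (Homeomorph.smulOfNeZero δ⁻¹ (inv_ne_zero hδ0.ne'))
  have hint : ∫ y, f y = δ ^ 3 * I := by
    have h1 := MeasureTheory.Measure.integral_comp_smul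
      (MeasureTheory.volume : MeasureTheory.Measure (Fin 3 → ℝ)) (bump 3) δ⁻¹
    rw [hf, h1, hI]
    simp only [Module.finrank_fintype_fun_eq_card, Fintype.card_fin, smul_eq_mul, inv_pow, inv_inv]
    rw [abs_of_pos (by positivity)]
  have hbox : ∀ y : Fin 3 → ℝ, (∀ i, |y i| ≤ ε ^ 2) → 1 ≤ f y := by
    intro y hy
    have h1 : ‖y‖ ≤ δ := (pi_norm_le_iff_of_nonneg hδ0.le).mpr (fun i => by simpa using hy i)
    have h2 : ‖δ⁻¹ • y‖ ≤ 1 := by
      rw [norm_smul, norm_inv, Real.norm_eq_abs, abs_of_pos hδ0]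
      rw [inv_mul_le_iff₀ hδ0]
      linarith
    show 1 ≤ max 0 (2 - ‖δ⁻¹ • y‖)
    exact le_trans (by linarith) (le_max_right _ _)
  have hasym := D.asym 3 f (fun y => bump_nonneg 3 _) hfs ε 1 hε0 hε1 zero_le_one hbox
  refine ⟨f, hfc, hfs, fun y => bump_nonneg 3 _, by rw [hint]; positivity, ?_⟩
  filter_upwards [hasym] with k hk
  refine le_trans ?_ hk
  have h1 : (((3 : ℕ) : ℝ) + 1) / 4 - 1 = 0 := by norm_num
  rw [h1, Real.rpow_zero, mul_one, one_mul, hint]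
  have h2 : (ε / (4 * (((3 : ℕ) : ℝ) + 1))) ^ (3 + 1) = ε ^ 4 * A := by
    rw [hA]
    push_cast
    ring
  rw [h2]
  have h3 : K ≤ |K| + 1 := by linarith [le_abs_self K]
  have h4 : K * (δ ^ 3 * I) ≤ (|K| + 1) * (δ ^ 3 * I) :=
    mul_le_mul_of_nonneg_right h3 (by positivity)
  have h5 : (|K| + 1) * (δ ^ 3 * I) = ε ^ 5 * (ε * ((|K| + 1) * I)) := by
    rw [hδ]; ring
  have h6 : ε ^ 5 * (ε * ((|K| + 1) * I)) ≤ ε ^ 4 * A := by
    have h7 : ε ^ 5 ≤ ε ^ 4 := pow_le_pow_of_le_one hε0.le hε1 (by norm_num)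
    exact mul_le_mul h7 hε2 (by positivity) (by positivity)
  linarith

/-- no convergence to the Poisson value as `N → ∞`, at every level from four on -/
lemma notPoisson (D : Dat) (d : ℕ) (hd : 3 ≤ d) :
    ∃ f : (Fin d → ℝ) → ℝ, Continuous f ∧ HasCompactSupport f ∧ (∀ y, 0 ≤ f y) ∧
      ¬ Tendsto (fun N => corr d N D.alpha f) atTop (𝓝 (∫ y, f y)) := by
  rcases Nat.lt_or_ge d 4 with h | h
  · obtain rfl : d = 3 := by omega
    obtain ⟨f, h1, h2, h3, h4, h5⟩ := four D 2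
    refine ⟨f, h1, h2, h3, ?_⟩
    intro ht
    have h7 := ge_of_tendsto (ht.comp (NN_tendsto D)) h5
    linarith
  · refine ⟨bump d, bump_continuous d, bump_compact d, bump_nonneg d, ?_⟩
    have h0 : 0 < bump d 0 := by unfold bump; simp
    intro ht
    exact not_tendsto_nhds_of_tendsto_atTop
      (diverges D d h _ (bump_continuous d) (bump_compact d) (bump_nonneg d) h0) _
      (ht.comp (NN_tendsto D))

/-! ### Many numbers in every interval -/

/-- the choices -/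
def ech (e : ℕ → Bool) (k : ℕ) : ℕ := if e k then 1 else 2

lemma start (a b : ℝ) (hab : a < b) :
    ∃ (m : ℕ) (p0 : ℤ), 1 ≤ m ∧ IsCoprime p0 2 ∧ a < (p0 : ℝ) / 4 ^ m ∧
      (p0 : ℝ) / 4 ^ m + 2 / (4 * (4 ^ m) ^ 2) < b := by
  have hba : 0 < b - a := by linarith
  obtain ⟨m, hm⟩ := exists_nat_gt (4 / (b - a))
  have h4m : ((m + 1 : ℕ) : ℝ) < 4 ^ (m + 1) := by
    have : m + 1 < 4 ^ (m + 1) := Nat.lt_pow_self (by norm_num)
    exact_mod_cast this
  set q : ℝ := 4 ^ (m + 1) with hq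
  have hq0 : 0 < q := by positivity
  have hq1 : 4 ≤ q := by
    rw [hq, pow_succ]
    have : (1 : ℝ) ≤ 4 ^ m := one_le_pow₀ (by norm_num)
    linarith
  have hqm : (m : ℝ) < q := by push_cast at h4m; linarith
  have hgap : 4 < (b - a) * q := by
    rw [div_lt_iff₀ hba] at hm
    nlinarith
  set t : ℤ := ⌊a * q / 2⌋ with ht
  have ht1 : (t : ℝ) ≤ a * q / 2 := Int.floor_le _
  have ht2 : a * q / 2 < t + 1 := Int.lt_floor_add_one _
  refine ⟨m + 1, 2 * t + 3, by omega, ⟨1, -(t + 1), by ring⟩, ?_, ?_⟩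
  · rw [lt_div_iff₀ (by positivity)]
    push_cast
    linarith
  · rw [← hq]
    have h1 : (2 : ℝ) / (4 * q ^ 2) ≤ (1 / 8) / q := by
      rw [div_le_div_iff₀ (by positivity) hq0]
      nlinarith
    have h2 : ((2 * t + 3 : ℤ) : ℝ) / q ≤ (a * q + 3) / q := by
      apply div_le_div_of_nonneg_right _ hq0.le
      push_cast
      linarith
    have h3 : (a * q + 3) / q + (1 / 8) / q < b := by
      rw [← add_div, div_lt_iff₀ hq0]
      linarith
    linarith

/-- **Theorem.** Every interval contains continuum many badly approximable `α` for which all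
`k`-level correlations of `{n² α}` with `k ≥ 4` fail to be Poissonian as `N → ∞`. -/
theorem result : ∀ a b : ℝ, a < b → ∃ S : Set ℝ, S ⊆ Set.Ioo a b ∧
    Cardinal.mk S = Cardinal.continuum ∧ ∀ α ∈ S, Irrational α ∧
      (∃ C : ℝ, 0 < C ∧ ∀ r q : ℤ, 1 ≤ q → C / (q : ℝ) ^ 2 ≤ |α - (r : ℝ) / q|) ∧
      (∀ κ : ℝ, 2 ≤ κ → IsOfType κ α) ∧
      (∃ N : ℕ → ℕ, StrictMono N ∧
        (∀ (d : ℕ) (f : (Fin d → ℝ) → ℝ), Continuous f → HasCompactSupport f →
          (∀ y, 0 ≤ f y) → 0 < f 0 →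
          ∃ c : ℝ, 0 < c ∧ ∀ᶠ j : ℕ in atTop,
            c * (N j : ℝ) ^ (((d : ℝ) + 1) / 4 - 1) ≤ corr d (N j) α f) ∧
        (∀ (d : ℕ) (f : (Fin d → ℝ) → ℝ), 4 ≤ d → Continuous f → HasCompactSupport f →
          (∀ y, 0 ≤ f y) → 0 < f 0 → Tendsto (fun j : ℕ => corr d (N j) α f) atTop atTop) ∧
        (∀ K : ℝ, ∃ f : (Fin 3 → ℝ) → ℝ, Continuous f ∧ HasCompactSupport f ∧
          (∀ y, 0 ≤ f y) ∧ 0 < ∫ y, f y ∧
          ∀ᶠ j : ℕ in atTop, K * ∫ y, f y ≤ corr 3 (N j) α f)) ∧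
      (∀ d : ℕ, 3 ≤ d → ∃ f : (Fin d → ℝ) → ℝ, Continuous f ∧ HasCompactSupport f ∧
        (∀ y, 0 ≤ f y) ∧ ¬ Tendsto (fun N => corr d N α f) atTop (𝓝 (∫ y, f y))) ∧
      ¬ PoissonianAlong α id := by
  intro a b hab
  obtain ⟨m, p0, hm, hp, h1, h2⟩ := start a b hab
  have he : ∀ (e : ℕ → Bool) (j : ℕ), 1 ≤ ech e j ∧ ech e j ≤ 2 := by
    intro e j
    unfold ech
    split_ifs <;> norm_num
  let DD : (ℕ → Bool) → Dat := fun e => ⟨m, p0, ech e, hm, hp, fun k => (he e k).1,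
    fun k => (he e k).2⟩
  have hinj : Function.Injective (fun e => (DD e).alpha) := by
    intro e e' h
    have h3 : ech e = ech e' := Dat.alpha_ne (DD e) (DD e') rfl rfl h
    funext j
    have h4 := congrFun h3 j
    unfold ech at h4
    revert h4
    cases e j <;> cases e' j <;> simp
  refine ⟨Set.range (fun e => (DD e).alpha), ?_, ?_, ?_⟩
  · rintro _ ⟨e, rfl⟩
    have h3 := (DD e).alpha_eq 0
    have h4 := (DD e).S_pos 0
    have h5 := (DD e).S_upper 0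
    have h6 : ((DD e).p 0 : ℝ) / ((DD e).Q 0 : ℝ) = (p0 : ℝ) / 4 ^ m := by
      rw [Dat.Q_cast]; rfl
    rw [h6] at h3
    have h7 : (2 : ℝ) / ((DD e).Q (0 + 1) : ℝ) ≤ 2 / (4 * (4 ^ m) ^ 2) := by
      rw [Dat.Q_succ_cast, Dat.Q_cast]
      have hX : (4 : ℝ) ≤ (4 : ℝ) ^ (DD e).e 0 := by exact_mod_cast (DD e).X_ge 0
      have hn : (DD e).n 0 = m := rfl
      rw [hn]
      apply div_le_div_of_nonneg_left (by norm_num) (by positivity)
      exact mul_le_mul_of_nonneg_right hX (by positivity)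
    show (DD e).alpha ∈ Set.Ioo a b
    rw [h3]
    exact ⟨by linarith, by linarith⟩
  · rw [Cardinal.mk_range_eq _ hinj]
    simp
  · rintro _ ⟨e, rfl⟩
    have hM : (0 : ℝ) < (DD e).M := by exact_mod_cast (DD e).M_pos
    have happ := (DD e).approx'
    refine ⟨(DD e).irrational, ⟨4 / ((DD e).M : ℝ), by positivity, fun r q hq => happ r q hq⟩,
      ?_, ⟨(DD e).NN, (DD e).NN_strict, ?_, ?_, four (DD e)⟩, notPoisson (DD e), ?_⟩
    · intro κ hκ
      refine ⟨4 / ((DD e).M : ℝ), by positivity, fun r q hq _ => ?_⟩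
      have hqR : (1 : ℝ) ≤ q := by exact_mod_cast hq
      have hq0 : (0 : ℝ) < q := by linarith
      refine le_trans ?_ (happ r q hq)
      have h3 : (q : ℝ) ^ (-κ) ≤ (q : ℝ) ^ (-(2 : ℝ)) :=
        Real.rpow_le_rpow_of_exponent_le hqR (by linarith)
      have h4 : (q : ℝ) ^ (-(2 : ℝ)) = 1 / (q : ℝ) ^ 2 := by
        rw [Real.rpow_neg hq0.le, Real.rpow_two, one_div]
      rw [h4] at h3
      calc 4 / ((DD e).M : ℝ) * (q : ℝ) ^ (-κ)
          ≤ 4 / ((DD e).M : ℝ) * (1 / (q : ℝ) ^ 2) :=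
            mul_le_mul_of_nonneg_left h3 (by positivity)
        _ = 4 / ((DD e).M : ℝ) / (q : ℝ) ^ 2 := by ring
    · exact fun d f h1 h2 h3 h4 => growth (DD e) d f h1 h2 h3 h4
    · exact fun d f hd h1 h2 h3 h4 => diverges (DD e) d hd f h1 h2 h3 h4
    · intro hP
      obtain ⟨f, h1, h2, _, h3⟩ := notPoisson (DD e) 3 le_rfl
      exact h3 (hP 3 (by norm_num) f h1 h2)

end Pool.Agent.Results.MP_0a44cb_nt.BadlyApproximable
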